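import Pool.Agent.ZP3.StmtsP

/-!
# Squad ZP3, row N3A: a generic direction
-/

set_option autoImplicit false

namespace Pool.Agent.ZP3.H24

open Pool.Agent.ZPT Pool.Agent.ZP3

noncomputable section

/-- Noether normalisation of a one-dimensional affine domain has at most one variable. -/
theorem noether_le {A : Type} [CommRing A] [IsDomain A] (hd : ringKrullDim A = 1) {s : ℕ}
    (g : MvPolynomial (Fin s) ℂ →+* A) (hg : Function.Injective g) (hi : g.IsIntegral) : s ≤ 1 := by
  by_contra hcon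
  push Not at hcon
  algebraize [g]
  have halg : Algebra.IsIntegral (MvPolynomial (Fin s) ℂ) A := ⟨hi⟩
  have hKD : Ring.KrullDimLE 1 A := Ring.krullDimLE_iff.mpr (by simpa using hd.le)
  let a : Fin s := ⟨0, by omega⟩
  let b : Fin s := ⟨1, by omega⟩
  have hab : b ≠ a := by
    intro h
    have := congrArg Fin.val h
    simp [a, b] at this
  have hpr : (Ideal.span {(MvPolynomial.X a : MvPolynomial (Fin s) ℂ)}).IsPrime := by
    rw [Ideal.span_singleton_prime (MvPolynomial.X_ne_zero a)]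
    exact MvPolynomial.X_prime
  obtain ⟨J, hJ, hJc⟩ := Ideal.exists_ideal_over_prime_of_isIntegral_of_isDomain
    (R := MvPolynomial (Fin s) ℂ) (S := A) (Ideal.span {(MvPolynomial.X a : MvPolynomial (Fin s) ℂ)})
    (by
      have h0 : RingHom.ker (algebraMap (MvPolynomial (Fin s) ℂ) A) = ⊥ :=
        (RingHom.injective_iff_ker_eq_bot _).1 hg
      rw [h0]
      exact bot_le)
  have hJ0 : J ≠ ⊥ := by
    rintro rfl
    have h1 : (MvPolynomial.X a : MvPolynomial (Fin s) ℂ) ∈
        Ideal.comap (algebraMap (MvPolynomial (Fin s) ℂ) A) ⊥ := by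
      rw [hJc]
      exact Ideal.mem_span_singleton_self _
    rw [Ideal.mem_comap, Ideal.mem_bot] at h1
    exact MvPolynomial.X_ne_zero a (hg (by rw [map_zero]; exact h1))
  have hJm : J.IsMaximal := hJ.isMaximal_of_ne_bot hJ0
  have hm := Ideal.isMaximal_comap_of_isIntegral_of_isMaximal (R := MvPolynomial (Fin s) ℂ) J
  rw [hJc] at hm
  -- not maximal
  have hb : (MvPolynomial.X b : MvPolynomial (Fin s) ℂ) ∉
      Ideal.span {(MvPolynomial.X a : MvPolynomial (Fin s) ℂ)} := by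
    rw [Ideal.mem_span_singleton]
    rintro ⟨c, hc⟩
    have h1 := congrArg (MvPolynomial.eval (fun i => if i = a then (0 : ℂ) else 1)) hc
    simp [hab] at h1
  obtain ⟨y, i, hi', hy⟩ := hm.exists_inv hb
  rw [Ideal.mem_span_singleton] at hi'
  obtain ⟨c, hc⟩ := hi'
  have h1 := congrArg (MvPolynomial.eval (fun _ => (0 : ℂ))) hy
  rw [hc] at h1
  simp at h1

theorem aux {F : Type} [Field F] (c a k j₁ j₂ : F) (h : j₂ ≠ 0) :
    c * (a * k * j₁) = j₁ * j₂ * (c * (a * (k / j₂))) := by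
  field_simp

/-- A polynomial relation between `X_i` and `X_k / X_j`. -/
theorem dep {n : ℕ} (P : Ideal (MvPolynomial (Fin n) ℂ)) (hP : P.IsPrime)
    (hd : ringKrullDim (MvPolynomial (Fin n) ℂ ⧸ P) = 1) (i j k : Fin n)
    (hj : MvPolynomial.X j ∉ P) : ∃ p : MvPolynomial (Fin 2) ℂ, p ≠ 0 ∧
      ∀ x ∈ V P, x j ≠ 0 → MvPolynomial.eval ![x i, x k / x j] p = 0 := by
  have hdom : IsDomain (MvPolynomial (Fin n) ℂ ⧸ P) := Ideal.Quotient.isDomain P
  let A := MvPolynomial (Fin n) ℂ ⧸ P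
  let K := FractionRing A
  obtain ⟨s, g, hg, hi⟩ := exists_integral_inj_algHom_of_fg ℂ (MvPolynomial (Fin n) ℂ ⧸ P)
  have hs : s ≤ 1 := noether_le hd g.toRingHom hg hi
  let mk : MvPolynomial (Fin n) ℂ →+* A := Ideal.Quotient.mk P
  have hmj : algebraMap A K (mk (MvPolynomial.X j)) ≠ 0 := by
    intro h
    have h1 := (IsFractionRing.injective A K) (by rw [h, map_zero] :
      algebraMap A K (mk (MvPolynomial.X j)) = algebraMap A K 0)
    exact hj (Ideal.Quotient.eq_zero_iff_mem.1 h1)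
  let y : Fin 2 → K := ![algebraMap A K (mk (MvPolynomial.X i)),
    algebraMap A K (mk (MvPolynomial.X k)) / algebraMap A K (mk (MvPolynomial.X j))]
  have hdep : ¬ AlgebraicIndependent ℂ y := by
    intro hind
    have h2 := hind.cardinalMk_le_trdeg
    let _ : Algebra (MvPolynomial (Fin s) ℂ) A := g.toRingHom.toAlgebra
    have _ : IsScalarTower ℂ (MvPolynomial (Fin s) ℂ) K := IsScalarTower.of_algebraMap_eq fun z => by
      change algebraMap ℂ K z = algebraMap A K (g (algebraMap ℂ _ z))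
      rw [g.commutes]
      rfl
    have _ : Algebra.IsIntegral (MvPolynomial (Fin s) ℂ) A := ⟨hi⟩
    have _ : Algebra.IsAlgebraic (MvPolynomial (Fin s) ℂ) A := inferInstance
    have hinj : Function.Injective (algebraMap (MvPolynomial (Fin s) ℂ) K) :=
      (IsFractionRing.injective A K).comp hg
    have _ : FaithfulSMul (MvPolynomial (Fin s) ℂ) K := by
      rw [faithfulSMul_iff_algebraMap_injective]
      exact hinj
    have _ : Module.IsTorsionFree (MvPolynomial (Fin s) ℂ) K :=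
      Module.isTorsionFree_iff_algebraMap_injective.2 hinj
    have _ : Algebra.IsAlgebraic (MvPolynomial (Fin s) ℂ) K :=
      (IsFractionRing.isAlgebraic_iff' (MvPolynomial (Fin s) ℂ) A K).1 inferInstance
    have h3 := trdeg_add_eq ℂ (MvPolynomial (Fin s) ℂ) (A := K)
    rw [trdeg_eq_zero (R := MvPolynomial (Fin s) ℂ), MvPolynomial.trdeg_of_isDomain, add_zero] at h3
    rw [← h3] at h2
    simp at h2
    have h4 : (2 : ℕ) ≤ s := by exact_mod_cast h2
    omega
  rw [algebraicIndependent_iff] at hdep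
  push Not at hdep
  obtain ⟨p, hp, hp0⟩ := hdep
  refine ⟨p, hp0, fun x hx hxj => ?_⟩
  -- the homogenised relation
  let N := p.totalDegree
  let q : MvPolynomial (Fin n) ℂ := ∑ d ∈ p.support, MvPolynomial.C (p.coeff d) *
    (MvPolynomial.X i ^ d 0 * MvPolynomial.X k ^ d 1 * MvPolynomial.X j ^ (N - d 1))
  have hN : ∀ d ∈ p.support, d 1 ≤ N := by
    intro d hd'
    refine le_trans ?_ (MvPolynomial.le_totalDegree hd')
    rw [Finsupp.sum_fintype _ _ (fun _ => rfl)]
    exact Finset.single_le_sum (fun _ _ => Nat.zero_le _) (Finset.mem_univ (1 : Fin 2))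
  have hq : q ∈ P := by
    rw [← Ideal.Quotient.eq_zero_iff_mem]
    apply IsFractionRing.injective A K
    rw [map_zero]
    have h1 : algebraMap A K (Ideal.Quotient.mk P q) =
        algebraMap A K (mk (MvPolynomial.X j)) ^ N * MvPolynomial.aeval y p := by
      rw [MvPolynomial.aeval_def, MvPolynomial.eval₂_eq']
      rw [Finset.mul_sum]
      simp only [q, map_sum, map_mul, map_pow]
      refine Finset.sum_congr rfl fun d hd' => ?_
      rw [Fin.prod_univ_two]
      have h2 : algebraMap A K (mk (MvPolynomial.X j)) ^ N =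
          algebraMap A K (mk (MvPolynomial.X j)) ^ (N - d 1) *
            algebraMap A K (mk (MvPolynomial.X j)) ^ d 1 := by
        rw [← pow_add, Nat.sub_add_cancel (hN d hd')]
      have h3 : algebraMap A K (Ideal.Quotient.mk P (MvPolynomial.C (p.coeff d)))
          = algebraMap ℂ K (p.coeff d) := rfl
      have e0 : y 0 = algebraMap A K (mk (MvPolynomial.X i)) := rfl
      have e1 : y 1 = algebraMap A K (mk (MvPolynomial.X k)) /
        algebraMap A K (mk (MvPolynomial.X j)) := rfl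
      rw [h3, h2, e0, e1, div_pow]
      have h5 := pow_ne_zero (d 1) hmj
      exact aux _ _ _ _ _ h5
    rw [h1, hp, mul_zero]
  have hev : MvPolynomial.eval x q = x j ^ N * MvPolynomial.eval ![x i, x k / x j] p := by
    have h0 : MvPolynomial.eval ![x i, x k / x j] p = _ := MvPolynomial.eval_eq' _ _
    rw [h0, Finset.mul_sum]
    simp only [q, map_sum, map_mul, map_pow, MvPolynomial.eval_C, MvPolynomial.eval_X]
    refine Finset.sum_congr rfl fun d hd' => ?_
    rw [Fin.prod_univ_two]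
    have h2 : x j ^ N = x j ^ (N - d 1) * x j ^ d 1 := by
      rw [← pow_add, Nat.sub_add_cancel (hN d hd')]
    have h5 := pow_ne_zero (d 1) hxj
    rw [h2]
    simp only [Matrix.cons_val_zero, Matrix.cons_val_one]
    rw [div_pow]
    exact aux _ _ _ _ _ h5
  have hz : MvPolynomial.eval x q = 0 := hx q hq
  rw [hev] at hz
  exact (mul_eq_zero.1 hz).resolve_left (pow_ne_zero _ hxj)

/-- The direction. -/
theorem direction (p : MvPolynomial (Fin 2) ℂ) (hp : p ≠ 0) : ∃ (s₀ : ℂ) (R δ : ℝ), s₀ ≠ 0 ∧ 0 < δ ∧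
    ∀ u s : ℂ, MvPolynomial.eval ![u, s] p = 0 → R < ‖u‖ → δ ≤ ‖s - s₀‖ := by
  let Q := MvPolynomial.finSuccEquiv ℂ 1 p
  have hQ : Q ≠ 0 := by
    intro h
    exact hp ((MvPolynomial.finSuccEquiv ℂ 1).injective (by rw [map_zero]; exact h))
  let D := Q.natDegree
  let h : ℕ → ℂ → ℂ := fun m s => MvPolynomial.eval (fun _ : Fin 1 => s) (Q.coeff m)
  have hcont : ∀ m, Continuous (h m) := by
    intro m
    exact (MvPolynomial.continuous_eval (Q.coeff m)).comp (continuous_pi fun _ => continuous_id)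
  have hev : ∀ u s : ℂ, MvPolynomial.eval ![u, s] p = ∑ m ∈ Finset.range (D + 1), h m s * u ^ m := by
    intro u s
    have h1 := MvPolynomial.eval_eq_eval_mv_eval' (fun _ : Fin 1 => s) u p
    have h2 : (Fin.cons u (fun _ : Fin 1 => s) : Fin 2 → ℂ) = ![u, s] := by
      funext i
      fin_cases i <;> rfl
    rw [h2] at h1
    rw [h1, Polynomial.eval_map, Polynomial.eval₂_eq_sum_range]
  obtain ⟨s₀, hs₀, hs₁⟩ : ∃ s₀ : ℂ, s₀ ≠ 0 ∧ h D s₀ ≠ 0 := by
    have h1 : Q.leadingCoeff * MvPolynomial.X 0 ≠ 0 :=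
      mul_ne_zero (Polynomial.leadingCoeff_ne_zero.2 hQ) (MvPolynomial.X_ne_zero 0)
    by_contra hcon
    push Not at hcon
    apply h1
    apply MvPolynomial.funext
    intro x
    have hx : x = fun _ : Fin 1 => x 0 := by
      funext i
      rw [Subsingleton.elim i 0]
    rw [map_mul, MvPolynomial.eval_X, map_zero]
    by_cases h0 : x 0 = 0
    · rw [h0, mul_zero]
    · have h2 := hcon (x 0) h0
      have h3 : MvPolynomial.eval x Q.leadingCoeff = 0 := by
        rw [hx]
        exact h2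
      rw [h3, zero_mul]
  set c := ‖h D s₀‖ / 2 with hc
  have hc0 : 0 < c := by
    have := norm_pos_iff.2 hs₁
    positivity
  let M : ℝ := ∑ m ∈ Finset.range D, (‖h m s₀‖ + 1)
  have hMm : ∀ m ∈ Finset.range D, ‖h m s₀‖ + 1 ≤ M := fun m hm =>
    Finset.single_le_sum (f := fun m => ‖h m s₀‖ + 1) (fun _ _ => by positivity) hm
  have hM0 : 0 ≤ M := Finset.sum_nonneg fun _ _ => by positivity
  have hn1 : ∀ᶠ s in nhds s₀, c < ‖h D s‖ :=
    ((hcont D).norm.continuousAt).eventually (lt_mem_nhds (by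
      have := norm_pos_iff.2 hs₁
      rw [hc]; linarith))
  have hn2 : ∀ᶠ s in nhds s₀, ∀ m ∈ Finset.range D, ‖h m s‖ < M := by
    rw [Filter.eventually_all_finset]
    intro m hm
    exact ((hcont m).norm.continuousAt).eventually (gt_mem_nhds (by
      have := hMm m hm
      linarith))
  obtain ⟨δ, hδ, hδ'⟩ := Metric.eventually_nhds_iff.1 (hn1.and hn2)
  refine ⟨s₀, max 1 (D * M / c), δ, hs₀, hδ, fun u s hus hu => ?_⟩
  by_contra hcon
  push Not at hcon
  obtain ⟨h1, h2⟩ := hδ' (y := s) (by rw [dist_eq_norm]; exact hcon)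
  have hu1 : 1 < ‖u‖ := lt_of_le_of_lt (le_max_left _ _) hu
  have hu2 : D * M / c < ‖u‖ := lt_of_le_of_lt (le_max_right _ _) hu
  rw [hev, Finset.sum_range_succ, add_eq_zero_iff_eq_neg] at hus
  have h3 : ‖h D s * u ^ D‖ = ‖∑ m ∈ Finset.range D, h m s * u ^ m‖ := by
    rw [hus, norm_neg]
  rw [norm_mul, norm_pow] at h3
  rcases Nat.eq_zero_or_pos D with hD | hD
  · rw [hD, Finset.range_zero, Finset.sum_empty, norm_zero, pow_zero, mul_one] at h3
    rw [hD] at h1
    linarith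
  · have h4 : ‖∑ m ∈ Finset.range D, h m s * u ^ m‖ ≤ D * (M * ‖u‖ ^ (D - 1)) := by
      refine (norm_sum_le _ _).trans ?_
      have h5 : ∀ m ∈ Finset.range D, ‖h m s * u ^ m‖ ≤ M * ‖u‖ ^ (D - 1) := by
        intro m hm
        rw [norm_mul, norm_pow]
        have h6 : ‖u‖ ^ m ≤ ‖u‖ ^ (D - 1) :=
          pow_le_pow_right₀ hu1.le (by have := Finset.mem_range.1 hm; omega)
        exact mul_le_mul (h2 m hm).le h6 (by positivity) hM0
      refine (Finset.sum_le_card_nsmul _ _ _ h5).trans ?_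
      rw [Finset.card_range, nsmul_eq_mul]
    have h6 : ‖u‖ ^ D = ‖u‖ ^ (D - 1) * ‖u‖ := by
      rw [← pow_succ, Nat.sub_add_cancel hD]
    have h7 : 0 < ‖u‖ ^ (D - 1) := by positivity
    rw [← h3, h6] at h4
    have h8 : c * ‖u‖ ≤ D * M := by
      have h9 : c * (‖u‖ ^ (D - 1) * ‖u‖) ≤ ‖h D s‖ * (‖u‖ ^ (D - 1) * ‖u‖) :=
        mul_le_mul_of_nonneg_right h1.le (by positivity)
      have h10 : ‖u‖ ^ (D - 1) * (c * ‖u‖) ≤ ‖u‖ ^ (D - 1) * (D * M) := by nlinarith
      exact le_of_mul_le_mul_left h10 h7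
    rw [div_lt_iff₀ hc0] at hu2
    nlinarith

/-- Row N3A. -/
theorem n3a : N3AStmt := by
  intro n P hP hd i j k _ _ _ hj
  obtain ⟨p, hp, hpx⟩ := dep P hP hd i j k hj
  obtain ⟨s₀, R, δ, hs₀, hδ, hdir⟩ := direction p hp
  have hK : 0 < 1 + ‖s₀‖ / δ := by positivity
  refine ⟨1, -s₀, R, min (min δ 1) (1 + ‖s₀‖ / δ)⁻¹, one_ne_zero, neg_ne_zero.2 hs₀, ?_, ?_⟩
  · exact lt_min (lt_min hδ one_pos) (inv_pos.2 hK)
  · intro x hx hR
    rw [one_mul, neg_mul]
    by_cases hxj : x j = 0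
    · rw [hxj, mul_zero, neg_zero, add_zero, norm_zero, mul_zero]
      refine ⟨norm_nonneg _, ?_⟩
      have h1 : min (min δ 1) (1 + ‖s₀‖ / δ)⁻¹ ≤ 1 := (min_le_left _ _).trans (min_le_right _ _)
      calc min (min δ 1) (1 + ‖s₀‖ / δ)⁻¹ * ‖x k‖ ≤ 1 * ‖x k‖ :=
            mul_le_mul_of_nonneg_right h1 (norm_nonneg _)
        _ = ‖x k‖ := one_mul _
    · have h1 := hdir (x i) (x k / x j) (hpx x hx hxj) hR
      have h2 : x k + -(s₀ * x j) = (x k / x j - s₀) * x j := by
        field_simp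
        ring
      rw [h2, norm_mul]
      have hn : 0 < ‖x j‖ := norm_pos_iff.2 hxj
      constructor
      · refine mul_le_mul_of_nonneg_right ?_ hn.le
        exact ((min_le_left _ _).trans (min_le_left _ _)).trans h1
      · have h3 : ‖x k‖ = ‖x k / x j‖ * ‖x j‖ := by
          rw [← norm_mul, div_mul_cancel₀ _ hxj]
        rw [h3, ← mul_assoc]
        refine mul_le_mul_of_nonneg_right ?_ hn.le
        have h4 : ‖x k / x j‖ ≤ (1 + ‖s₀‖ / δ) * ‖x k / x j - s₀‖ := by
          have h5 : ‖x k / x j‖ ≤ ‖x k / x j - s₀‖ + ‖s₀‖ := by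
            have := norm_add_le (x k / x j - s₀) s₀
            rwa [sub_add_cancel] at this
          have h6 : ‖s₀‖ ≤ ‖s₀‖ / δ * ‖x k / x j - s₀‖ := by
            rw [div_mul_eq_mul_div, le_div_iff₀ hδ]
            exact mul_le_mul_of_nonneg_left h1 (norm_nonneg _)
          nlinarith
        calc min (min δ 1) (1 + ‖s₀‖ / δ)⁻¹ * ‖x k / x j‖
            ≤ (1 + ‖s₀‖ / δ)⁻¹ * ‖x k / x j‖ :=
              mul_le_mul_of_nonneg_right (min_le_right _ _) (norm_nonneg _)
          _ ≤ (1 + ‖s₀‖ / δ)⁻¹ * ((1 + ‖s₀‖ / δ) * ‖x k / x j - s₀‖) :=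
              mul_le_mul_of_nonneg_left h4 (inv_nonneg.2 hK.le)
          _ = ‖x k / x j - s₀‖ := by
              rw [← mul_assoc, inv_mul_cancel₀ hK.ne', one_mul]

end

end Pool.Agent.ZP3.H24
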